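import Pool.Agent.Work.MP_6f78fb_rk.Interface

open scoped BigOperators TensorProduct
open Classical

noncomputable section

namespace Pool.RookLC.helper98

/-- In a component, all rows but at most one are in `R` as soon as each edge is `{x, f x}` with
`x ∈ R`. -/
theorem card_sdiff_le {n : ℕ} (H : SimpleGraph (Fin n)) (r : Fin n) (κ R : Finset (Fin n))
    (f : Fin n → Fin n) (hκ : ∀ b, b ∈ κ ↔ H.Reachable r b)
    (hf : ∀ a b, H.Adj a b → (a ∈ R ∧ f a = b) ∨ (b ∈ R ∧ f b = a)) :
    (κ \ R).card ≤ 1 := by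
  set C : H.ConnectedComponent := H.connectedComponentMk r with hC
  have hCs : ∀ b, b ∈ C.supp ↔ b ∈ κ := by
    intro b
    rw [hκ, SimpleGraph.ConnectedComponent.mem_supp_iff, hC, SimpleGraph.ConnectedComponent.eq]
    exact ⟨fun h => h.symm, fun h => h.symm⟩
  have hconn := C.connected_toSimpleGraph
  have h1 := hconn.card_vert_le_card_edgeSet_add_one
  have hex : ∀ e : C.toSimpleGraph.edgeSet, ∃ x : {x // x ∈ κ ∩ R},
      Sym2.map (fun v : C => (v : Fin n)) e.1 = s(x.1, f x.1) := by
    rintro ⟨e, he⟩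
    induction e using Sym2.ind with
    | _ u v =>
      rw [SimpleGraph.mem_edgeSet] at he
      have hadj : H.Adj u v := by simpa [SimpleGraph.ConnectedComponent.toSimpleGraph] using he
      have hu : (u : Fin n) ∈ κ := (hCs _).1 u.2
      have hv : (v : Fin n) ∈ κ := (hCs _).1 v.2
      rcases hf _ _ hadj with ⟨h2, h3⟩ | ⟨h2, h3⟩
      · exact ⟨⟨u, Finset.mem_inter.2 ⟨hu, h2⟩⟩, by simp [h3]⟩
      · refine ⟨⟨v, Finset.mem_inter.2 ⟨hv, h2⟩⟩, ?_⟩
        simp only [Sym2.map_mk, h3]
        exact Sym2.eq_swap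
  choose φ hφ using hex
  have hinj : Function.Injective φ := by
    intro e e' h
    apply Subtype.ext
    apply Sym2.map.injective (f := fun v : C => (v : Fin n)) Subtype.val_injective
    rw [hφ e, hφ e', h]
  have h2 := Nat.card_le_card_of_injective φ hinj
  have h3 : Nat.card {x // x ∈ κ ∩ R} = (κ ∩ R).card := by
    rw [Nat.card_eq_fintype_card, Fintype.card_coe]
  have h4 : Nat.card C = κ.card := by
    have : Nat.card C = Nat.card {x // x ∈ κ} :=
      Nat.card_congr (Equiv.subtypeEquivRight hCs)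
    rw [this, Nat.card_eq_fintype_card, Fintype.card_coe]
  have h5 := Finset.card_sdiff_add_card_inter κ R
  have h6 : Nat.card C ≤ Nat.card C.toSimpleGraph.edgeSet + 1 := h1
  omega

/-- rows with a rook -/
def real {n m : ℕ} (α : Cf n m) : Finset (Fin n) :=
  Finset.univ.filter fun a => ∃ j, α a = some (some j)

theorem card_notReal {n m : ℕ} (H : SimpleGraph (Fin n)) (r : Fin n) (κ : Finset (Fin n))
    (α β : Cf n m) (hβ : Valid β) (hκ : ∀ b, b ∈ κ ↔ H.Reachable r b)
    (hf : ∀ a b, H.Adj a b → ∃ j, (α a = some (some j) ∧ β b = some (some j)) ∨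
      (β a = some (some j) ∧ α b = some (some j))) :
    (κ \ real α).card ≤ 1 := by
  set f : Fin n → Fin n := fun x => if h : ∃ y j, α x = some (some j) ∧ β y = some (some j)
    then h.choose else x with hfdef
  have hfx : ∀ x y j, α x = some (some j) → β y = some (some j) → f x = y := by
    intro x y j hx hy
    have h : ∃ y j, α x = some (some j) ∧ β y = some (some j) := ⟨y, j, hx, hy⟩
    rw [hfdef]
    simp only
    rw [dif_pos h]
    obtain ⟨j', h1, h2⟩ := h.choose_spec
    rw [hx] at h1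
    have hj : j = j' := by simpa using h1
    subst hj
    exact hβ _ _ j h2 hy
  refine card_sdiff_le H r κ (real α) f hκ ?_
  intro a b hab
  obtain ⟨j, ⟨h1, h2⟩ | ⟨h1, h2⟩⟩ := hf a b hab
  · left
    exact ⟨by simp [real, h1], hfx a b j h1 h2⟩
  · right
    exact ⟨by simp [real, h2], hfx b a j h2 h1⟩

theorem sum_states {n m : ℕ} (κ : Finset (Fin n)) (α : Cf n m) :
    ∃ e t : ℕ, e + t = (κ \ real α).card ∧
      (∑ a ∈ κ, (if α a = none then (0 : ℤ) else 1)) = κ.card - e ∧
      (∑ a ∈ κ, (if α a = some none then (1 : ℤ) else 0)) = t := by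
  refine ⟨(κ.filter fun a => α a = none).card, (κ.filter fun a => α a = some none).card,
    ?_, ?_, ?_⟩
  · rw [← Finset.card_union_of_disjoint]
    · congr 1
      ext a
      simp only [Finset.mem_union, Finset.mem_filter, Finset.mem_sdiff, real, Finset.mem_univ,
        true_and, not_exists]
      rcases h : α a with _ | _ | j
      · simp
      · simp
      · simp
    · rw [Finset.disjoint_left]
      intro a h1 h2
      rw [Finset.mem_filter] at h1 h2
      rw [h1.2] at h2
      exact absurd h2.2 (by simp)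
  · rw [Finset.sum_ite, Finset.sum_const_zero, zero_add, Finset.sum_const, nsmul_eq_mul, mul_one]
    have := Finset.card_filter_add_card_filter_not (s := κ) (fun a => α a = none)
    have h2 : ((κ.filter fun a => α a = none).card : ℤ) +
      (κ.filter fun a => ¬ α a = none).card = κ.card := by exact_mod_cast this
    linarith
  · rw [Finset.sum_boole]

theorem mem_cmp {n m : ℕ} (ω : Pr n m) (a b : Fin n) : b ∈ cmp ω a ↔ (gr ω).Reachable a b := by
  simp [cmp]

theorem stmt_COMPB : Stmt_COMPB := by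
  intro n m ω
  refine ⟨fun κ hκ => ?_, fun hv => ?_⟩
  · by_cases hv : Valid2 ω
    · simp only [comps, if_pos hv, Finset.mem_image, Finset.mem_univ, true_and] at hκ
      obtain ⟨r, rfl⟩ := hκ
      have h1 := card_notReal (gr ω) r (cmp ω r) ω.1 ω.2 hv.2 (mem_cmp ω r)
        (fun a b hab => hab.2)
      have h2 := card_notReal (gr ω) r (cmp ω r) ω.2 ω.1 hv.1 (mem_cmp ω r)
        (fun a b hab => by
          obtain ⟨j, h | h⟩ := hab.2
          · exact ⟨j, Or.inr h⟩
          · exact ⟨j, Or.inl h⟩)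
      obtain ⟨e1, t1, ha1, hb1, hc1⟩ := sum_states (cmp ω r) ω.1
      obtain ⟨e2, t2, ha2, hb2, hc2⟩ := sum_states (cmp ω r) ω.2
      have hch : ch (cmp ω r) ω = ((e1 : ℤ) - e2, (t2 : ℤ) - t1) := by
        unfold ch
        rw [Finset.sum_sub_distrib, Finset.sum_sub_distrib, hb1, hb2, hc1, hc2]
        congr 1
        ring
      rw [hch]
      have c1 : (e1 = 0 ∧ t1 = 0) ∨ (e1 = 1 ∧ t1 = 0) ∨ (e1 = 0 ∧ t1 = 1) := by omega
      have c2 : (e2 = 0 ∧ t2 = 0) ∨ (e2 = 1 ∧ t2 = 0) ∨ (e2 = 0 ∧ t2 = 1) := by omega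
      rcases c1 with ⟨rfl, rfl⟩ | ⟨rfl, rfl⟩ | ⟨rfl, rfl⟩ <;>
      rcases c2 with ⟨rfl, rfl⟩ | ⟨rfl, rfl⟩ | ⟨rfl, rfl⟩ <;> simp
    · simp only [comps, if_neg hv, Finset.notMem_empty] at hκ
  · have hcomps : comps ω = Finset.univ.image (cmp ω) := by simp only [comps, if_pos hv]
    have hfib : ∀ κ ∈ comps ω, κ = Finset.univ.filter (fun a => cmp ω a = κ) := by
      intro κ hκ
      rw [hcomps, Finset.mem_image] at hκ
      obtain ⟨c, _, rfl⟩ := hκ
      ext a
      rw [mem_cmp, Finset.mem_filter]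
      constructor
      · intro h
        refine ⟨Finset.mem_univ _, ?_⟩
        ext b
        rw [mem_cmp, mem_cmp]
        exact ⟨fun h' => h.trans h', fun h' => h.symm.trans h'⟩
      · rintro ⟨_, h⟩
        rw [← mem_cmp, ← h, mem_cmp]
    have hsum : ∀ F : Fin n → ℤ, ∑ κ ∈ comps ω, ∑ a ∈ κ, F a = ∑ a, F a := by
      intro F
      rw [← Finset.sum_fiberwise_of_maps_to (g := cmp ω) (t := comps ω)
        (fun a _ => by rw [hcomps]; exact Finset.mem_image_of_mem _ (Finset.mem_univ a)) F]
      refine Finset.sum_congr rfl fun κ hκ => ?_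
      exact Finset.sum_congr (hfib κ hκ) fun _ _ => rfl
    have hd : ∀ α : Cf n m, ∑ a, (if α a = none then (0 : ℤ) else 1) = dd α := by
      intro α
      rw [Finset.sum_ite, Finset.sum_const_zero, zero_add, Finset.sum_const, nsmul_eq_mul,
        mul_one]
      rfl
    have ht : ∀ α : Cf n m, ∑ a, (if α a = some none then (1 : ℤ) else 0) = tt α := by
      intro α
      rw [Finset.sum_boole]
      rfl
    refine Prod.ext ?_ ?_
    · rw [Prod.fst_sum]
      simp only [ch]
      rw [hsum, Finset.sum_sub_distrib, hd, hd]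
    · rw [Prod.snd_sum]
      simp only [ch]
      rw [hsum, Finset.sum_sub_distrib, ht, ht]

end Pool.RookLC.helper98
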