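import Pool.Agent.Work.MP_6f78fb_rk.Interface

open scoped BigOperators TensorProduct
open Classical

noncomputable section

namespace Pool.RookLC.helper98

theorem stmt_PROJ : Stmt_PROJ := by
  intro Γ _ _ E _ _ ρ hmul hone W hW
  obtain ⟨p, hp⟩ := LinearMap.exists_leftInverse_of_injective W.subtype
    (Submodule.ker_subtype W)
  have hpw : ∀ w (hw : w ∈ W), p w = ⟨w, hw⟩ := by
    intro w hw
    have := LinearMap.congr_fun hp ⟨w, hw⟩
    simpa using this
  set q : E →ₗ[ℂ] E := W.subtype ∘ₗ p with hq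
  have hqW : ∀ x, q x ∈ W := fun x => by simp [hq]
  have hqw : ∀ w ∈ W, q w = w := fun w hw => by
    simp [hq, hpw w hw]
  have hcomp : ∀ g h x, ρ g (ρ h x) = ρ (g * h) x := fun g h x => by
    rw [hmul]; rfl
  have hcard : (Fintype.card Γ : ℂ) ≠ 0 := by
    exact_mod_cast Fintype.card_ne_zero
  refine ⟨(Fintype.card Γ : ℂ)⁻¹ • ∑ g : Γ, ρ g ∘ₗ q ∘ₗ ρ g⁻¹, ?_, ?_, ?_⟩
  · intro x
    rw [LinearMap.smul_apply, LinearMap.sum_apply]
    refine W.smul_mem _ (W.sum_mem fun g _ => ?_)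
    exact hW g _ (hqW _)
  · intro w hw
    rw [LinearMap.smul_apply, LinearMap.sum_apply]
    have h1 : ∀ g ∈ (Finset.univ : Finset Γ), (ρ g ∘ₗ q ∘ₗ ρ g⁻¹) w = w := by
      intro g _
      simp only [LinearMap.comp_apply]
      rw [hqw _ (hW _ _ hw), hcomp, mul_inv_cancel, hone]
      rfl
    rw [Finset.sum_congr rfl h1, Finset.sum_const, Finset.card_univ, ← Nat.cast_smul_eq_nsmul ℂ,
      smul_smul, inv_mul_cancel₀ hcard, one_smul]
  · intro h
    apply LinearMap.ext
    intro x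
    simp only [LinearMap.comp_apply, LinearMap.smul_apply, LinearMap.sum_apply, map_smul, map_sum]
    congr 1
    refine (Fintype.sum_equiv (Equiv.mulLeft h) _ _ fun k => ?_).symm
    simp only [Equiv.coe_mulLeft]
    rw [hcomp, hcomp]
    congr 2
    rw [mul_inv_rev, inv_mul_cancel_right]

end Pool.RookLC.helper98
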